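import Pool.Agent.Work.MP_2738db_nt_C.Interface

/-! Block STO: `x ^ 2 - y ^ 2 = c ^ k`, `c` odd. -/

set_option autoImplicit false

namespace Pool.Agent.Work.MP_2738db_nt_C.helper24

open Pool.Agent.Work.MP_2738db_nt_C

theorem sto : Stmt_Sto := by
  intro x y c k hxy hy hc hk h
  have hc0 : 1 ≤ c := by
    rcases Nat.eq_zero_or_pos c with h0 | h0
    · exact absurd (h0 ▸ dvd_zero 2) hc
    · exact h0
  have hck : 1 ≤ c ^ k := Nat.one_le_pow _ _ hc0
  have hlt : y < x := by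
    by_contra hle
    push Not at hle
    have : x ^ 2 ≤ y ^ 2 := Nat.pow_le_pow_left hle 2
    omega
  obtain ⟨s, hs1, rfl⟩ : ∃ s : ℕ, 1 ≤ s ∧ x = y + s := ⟨x - y, by omega, by omega⟩
  have hprod : s * (2 * y + s) = c ^ k := by nlinarith [h]
  have hodd : ¬ 2 ∣ c ^ k := fun h2 => hc (Nat.prime_two.dvd_of_dvd_pow h2)
  have hcop : Nat.Coprime s (2 * y + s) := by
    rw [Nat.coprime_iff_gcd_eq_one]
    by_contra hne
    obtain ⟨p, hp, hpd⟩ := Nat.exists_prime_and_dvd hne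
    have h1 : p ∣ s := hpd.trans (Nat.gcd_dvd_left _ _)
    have h2 : p ∣ 2 * y + s := hpd.trans (Nat.gcd_dvd_right _ _)
    have h3 : p ∣ 2 * y := (Nat.dvd_add_left h1).mp h2
    rcases (Nat.Prime.dvd_mul hp).mp h3 with h4 | h4
    · have : p = 2 := (Nat.prime_dvd_prime_iff_eq hp Nat.prime_two).mp h4
      exact hodd (this ▸ (h1.trans (Dvd.intro _ hprod)))
    · have h5 : p ∣ y + s := dvd_add h4 h1
      have := Nat.dvd_gcd h5 h4
      rw [Nat.coprime_iff_gcd_eq_one.mp hxy] at this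
      exact hp.one_lt.ne' (Nat.dvd_one.mp this)
  obtain ⟨u, hu⟩ : ∃ u : ℕ, s = u ^ k := by
    refine exists_eq_pow_of_mul_eq_pow ?_ hprod
    rw [Nat.isUnit_iff]; exact hcop
  obtain ⟨v, hv⟩ : ∃ v : ℕ, 2 * y + s = v ^ k := by
    refine exists_eq_pow_of_mul_eq_pow (b := s) ?_ (by rw [mul_comm]; exact hprod)
    rw [Nat.isUnit_iff]; exact hcop.symm
  have hk0 : k ≠ 0 := by omega
  have huv : c = u * v := by
    have : (u * v) ^ k = c ^ k := by rw [mul_pow, ← hu, ← hv, hprod]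
    exact (Nat.pow_left_injective (n := k) (by omega) this).symm
  have hu1 : 1 ≤ u := by
    rcases Nat.eq_zero_or_pos u with h0 | h0
    · rw [h0, zero_pow hk0] at hu; omega
    · exact h0
  refine ⟨u, v, huv, hu1, ?_, ?_, ?_, ?_, ?_, ?_⟩
  · by_contra hle
    push Not at hle
    have : v ^ k ≤ u ^ k := Nat.pow_le_pow_left hle k
    omega
  · rw [hv, hu] at hcop
    exact (Nat.coprime_pow_left_iff (by omega) _ _).mp
      ((Nat.coprime_pow_right_iff (by omega) _ _).mp hcop)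
  · intro h2; exact hc (huv ▸ Dvd.dvd.mul_right h2 v)
  · intro h2; exact hc (huv ▸ Dvd.dvd.mul_left h2 u)
  · rw [← hv, ← hu]; ring
  · rw [← hu]; omega

end Pool.Agent.Work.MP_2738db_nt_C.helper24
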